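import Pool.Agent.GRH.Sys

/-!
The quaternion words `∏ (1 + c j)` over `E[X]`, `j ^ 2 = -X`, and their girth estimate.
-/

namespace Pool.Agent.GRH

open Polynomial

section alg

variable {E : Type*} [Field E]

/-- right multiplication by `1 + c j` -/
def T (t c : E) (v : E × E) : E × E := (v.1 - t * v.2 * c⁻¹, v.1 * c + v.2)

/-- the norm form -/
def nrm (σ : E →+* E) (t : E) (v : E × E) : E := v.1 * σ v.1 + t * (v.2 * σ v.2)

/-- left multiplication by `g.1 + g.2 j` -/
def Lm (σ : E →+* E) (t : E) (g v : E × E) : E × E :=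
  (g.1 * v.1 - t * g.2 * σ v.2, g.1 * v.2 + g.2 * σ v.1)

/-- the words -/
def TE (t : E) : List E → E × E → E × E
  | [], v => v
  | c :: l, v => TE t l (T t c v)

/-- right multiplication by `1 + c j` over polynomials -/
noncomputable def PT (c : E) (v : E[X] × E[X]) : E[X] × E[X] :=
  (v.1 - X * v.2 * C c⁻¹, v.1 * C c + v.2)

noncomputable def PE : List E → E[X] × E[X] → E[X] × E[X]
  | [], v => v
  | c :: l, v => PE l (PT c v)

/-- a good letter -/
def GoodL (σ φ : E →+* E) (c : E) : Prop := c ≠ 0 ∧ σ c = c⁻¹ ∧ φ c = c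

theorem GoodL.neg {σ φ : E →+* E} {c : E} (h : GoodL σ φ c) : GoodL σ φ (-c) := by
  obtain ⟨h1, h2, h3⟩ := h
  refine ⟨neg_ne_zero.mpr h1, ?_, ?_⟩
  · rw [map_neg, h2, inv_neg]
  · rw [map_neg, h3]

theorem T_smul (t c k : E) (v : E × E) : T t c (k * v.1, k * v.2) =
    (k * (T t c v).1, k * (T t c v).2) := by
  simp only [T, Prod.mk.injEq]
  constructor <;> ring

theorem TE_smul (t : E) (l : List E) (k : E) (v : E × E) : TE t l (k * v.1, k * v.2) =
    (k * (TE t l v).1, k * (TE t l v).2) := by
  induction l generalizing v with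
  | nil => rfl
  | cons c l ih =>
    simp only [TE]
    rw [T_smul, ih]

theorem nrm_T {σ φ : E →+* E} {t c : E} (ht : σ t = t) (hc : GoodL σ φ c) (v : E × E) :
    nrm σ t (T t c v) = (1 + t) * nrm σ t v := by
  obtain ⟨h1, h2, h3⟩ := hc
  have h4 : σ c⁻¹ = c := by rw [map_inv₀, h2, inv_inv]
  simp only [nrm, T, map_sub, map_mul, map_add, h2, h4, ht]
  field_simp
  ring

theorem T_Lm {σ φ : E →+* E} {t c : E} (ht : σ t = t) (hc : GoodL σ φ c) (g v : E × E) :
    T t c (Lm σ t g v) = Lm σ t g (T t c v) := by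
  obtain ⟨h1, h2, h3⟩ := hc
  have h4 : σ c⁻¹ = c := by rw [map_inv₀, h2, inv_inv]
  simp only [Lm, T, map_sub, map_mul, map_add, h2, h4, ht, Prod.mk.injEq]
  constructor
  · ring
  · ring

theorem TE_Lm {σ φ : E →+* E} {t : E} (ht : σ t = t) (l : List E)
    (hl : ∀ c ∈ l, GoodL σ φ c) (g v : E × E) :
    TE t l (Lm σ t g v) = Lm σ t g (TE t l v) := by
  induction l generalizing v with
  | nil => rfl
  | cons c l ih =>
    simp only [TE]
    rw [T_Lm ht (hl c (by simp)), ih (fun c hc => hl c (by simp [hc]))]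

theorem Lm_conj {σ : E →+* E} {t : E} (v : E × E) :
    Lm σ t (σ v.1, -v.2) v = (nrm σ t v, 0) := by
  simp only [Lm, nrm, Prod.mk.injEq]
  constructor <;> ring

theorem Lm_smul {σ : E →+* E} {t k : E} (hk : σ k = k) (g v : E × E) :
    Lm σ t g (k * v.1, k * v.2) = (k * (Lm σ t g v).1, k * (Lm σ t g v).2) := by
  simp only [Lm, map_mul, hk, Prod.mk.injEq]
  constructor <;> ring

/-- reduction to the starting vector `(1, 0)` -/
theorem TE_one {σ φ : E →+* E} {t : E} (ht : σ t = t) (l : List E)
    (hl : ∀ c ∈ l, GoodL σ φ c) (v : E × E) (hv : nrm σ t v ≠ 0) {k : E} (hk : σ k = k)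
    (h : TE t l v = (k * v.1, k * v.2)) : TE t l (1, 0) = (k, 0) := by
  have h1 := TE_Lm ht l hl (σ v.1, -v.2) v
  rw [h, Lm_smul hk, Lm_conj] at h1
  have h2 := TE_smul t l (nrm σ t v) (1, 0)
  simp only [mul_one, mul_zero] at h2 h1
  rw [h2] at h1
  have h3 := congrArg Prod.fst h1
  have h4 := congrArg Prod.snd h1
  simp only at h3 h4
  apply Prod.ext
  · simp only
    apply mul_left_cancel₀ hv
    rw [h3]
    ring
  · simp only
    exact (mul_eq_zero.mp h4).resolve_left hv

/-- the invariants of a polynomial pair after `k` letters -/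
def GoodP (σ φ : E →+* E) (k : ℕ) (p : E[X] × E[X]) : Prop :=
  p.1 * p.1.map σ + X * (p.2 * p.2.map σ) = (1 + X) ^ k ∧
  p.1.map φ = p.1 ∧ p.2.map φ = p.2 ∧
  2 * p.1.natDegree ≤ k ∧ (p.2 = 0 ∨ 2 * p.2.natDegree + 1 ≤ k)

theorem GoodP.step {σ φ : E →+* E} {k : ℕ} {p : E[X] × E[X]} (h : GoodP σ φ k p)
    {c : E} (hc : GoodL σ φ c) : GoodP σ φ (k + 1) (PT c p) := by
  obtain ⟨h1, h2, h3, h4, h5⟩ := h
  obtain ⟨g1, g2, g3⟩ := hc
  have g4 : σ c⁻¹ = c := by rw [map_inv₀, g2, inv_inv]
  have g5 : φ c⁻¹ = c⁻¹ := by rw [map_inv₀, g3]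
  have hCC : C c * C c⁻¹ = (1 : E[X]) := by
    rw [← C_mul, mul_inv_cancel₀ g1, C_1]
  refine ⟨?_, ?_, ?_, ?_, ?_⟩
  · simp only [PT, Polynomial.map_sub, Polynomial.map_mul, Polynomial.map_add, map_X, map_C,
      g2, g4]
    rw [pow_succ, ← h1]
    linear_combination
      (X ^ 2 * p.2 * p.2.map σ + X * p.1 * p.1.map σ) * hCC
  · simp only [PT, Polynomial.map_sub, Polynomial.map_mul, map_X, map_C, h2, h3, g5]
  · simp only [PT, Polynomial.map_add, Polynomial.map_mul, map_C, h2, h3, g3]
  · simp only [PT]
    have hd1 : (X * p.2 * C c⁻¹).natDegree ≤ (k + 1) / 2 := by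
      rcases h5 with h5 | h5
      · simp [h5]
      · refine (natDegree_mul_le).trans ?_
        rw [natDegree_C]
        refine le_trans (Nat.add_le_add_right natDegree_mul_le 0) ?_
        have : (X : E[X]).natDegree ≤ 1 := natDegree_X_le
        omega
    have hd2 : p.1.natDegree ≤ (k + 1) / 2 := by omega
    have := natDegree_sub_le_of_le hd2 hd1
    simp only [max_self] at this
    omega
  · right
    simp only [PT]
    have hd1 : (p.1 * C c).natDegree ≤ k / 2 := by
      refine (natDegree_mul_le).trans ?_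
      rw [natDegree_C]
      omega
    have hd2 : p.2.natDegree ≤ k / 2 := by
      rcases h5 with h5 | h5
      · simp [h5]
      · omega
    have := natDegree_add_le_of_le hd1 hd2
    simp only [max_self] at this
    omega

theorem GoodP.list {σ φ : E →+* E} (l : List E) (hl : ∀ c ∈ l, GoodL σ φ c)
    {k : ℕ} {p : E[X] × E[X]} (h : GoodP σ φ k p) : GoodP σ φ (k + l.length) (PE l p) := by
  induction l generalizing k p with
  | nil => simpa [PE] using h
  | cons c l ih =>
    have h1 := ih (fun c hc => hl c (by simp [hc])) (h.step (hl c (by simp)))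
    simp only [PE, List.length_cons]
    rwa [show k + (l.length + 1) = k + 1 + l.length by ring]

theorem GoodP.start {σ φ : E →+* E} : GoodP σ φ 0 ((1, 0) : E[X] × E[X]) := by
  refine ⟨by simp, by simp, by simp, by simp, by simp⟩

theorem PE_eval (t : E) (l : List E) (p : E[X] × E[X]) :
    ((PE l p).1.eval t, (PE l p).2.eval t) = TE t l (p.1.eval t, p.2.eval t) := by
  induction l generalizing p with
  | nil => rfl
  | cons c l ih =>
    simp only [PE, TE]
    rw [ih]
    congr 1
    simp [PT, T]

/-- nonvanishing at `-1` -/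
theorem NV_list (l : List E) (hl : ∀ c ∈ l, c ≠ 0) (c0 : E)
    (hch : (c0 :: l).IsChain (fun a b => b ≠ -a)) (p : E[X] × E[X])
    (hp : p.1.eval (-1) ≠ 0) (hp2 : p.2.eval (-1) = c0 * p.1.eval (-1)) :
    (PE l p).1.eval (-1) ≠ 0 := by
  induction l generalizing c0 p with
  | nil => simpa [PE] using hp
  | cons c l ih =>
    rw [List.isChain_cons_cons] at hch
    have hc : c ≠ 0 := hl c (by simp)
    simp only [PE]
    refine ih (fun c hc => hl c (by simp [hc])) c hch.2 _ ?_ ?_
    · simp only [PT, eval_sub, eval_mul, eval_X, eval_C, hp2]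
      have h1 : p.1.eval (-1) - -1 * (c0 * p.1.eval (-1)) * c⁻¹ =
          p.1.eval (-1) * c⁻¹ * (c + c0) := by
        field_simp
        ring
      rw [h1]
      refine mul_ne_zero (mul_ne_zero hp (inv_ne_zero hc)) ?_
      intro h2
      apply hch.1
      linear_combination h2
    · simp only [PT, eval_sub, eval_add, eval_mul, eval_X, eval_C, hp2]
      field_simp
      ring

/-- many double roots -/
theorem two_mul_le_natDegree {P : E[X]} (hP : P ≠ 0) {D : ℕ} (x : ℕ → E)
    (hinj : ∀ i < D, ∀ j < D, x i = x j → i = j)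
    (h0 : ∀ i < D, P.eval (x i) = 0) (h1 : ∀ i < D, (derivative P).eval (x i) = 0) :
    2 * D ≤ P.natDegree := by
  classical
  set F : Finset E := (Finset.range D).image x with hF
  have hFc : F.card = D := by
    rw [hF, Finset.card_image_of_injOn, Finset.card_range]
    intro i hi j hj hij
    exact hinj i (by simpa using hi) j (by simpa using hj) hij
  have hle : 2 • F.val ≤ P.roots := by
    rw [Multiset.le_iff_count]
    intro a
    rw [Multiset.count_nsmul]
    by_cases ha : a ∈ F
    · rw [Multiset.count_eq_one_of_mem F.nodup ha, count_roots]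
      rw [hF, Finset.mem_image] at ha
      obtain ⟨i, hi, rfl⟩ := ha
      have hi' : i < D := by simpa using hi
      have := (one_lt_rootMultiplicity_iff_isRoot hP).mpr ⟨h0 i hi', h1 i hi'⟩
      omega
    · rw [Multiset.count_eq_zero_of_notMem ha]
      simp
  have h2 := Multiset.card_le_card hle
  rw [Multiset.card_nsmul, Finset.card_val, hFc] at h2
  exact h2.trans (card_roots' P)

/-- the main estimate: a reduced word of length `2 m < 4 D` is not `(1 + t) ^ m` -/
theorem word_ne {σ φ : E →+* E} {t : E} {D m : ℕ} (ht : σ t = t)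
    (hcomm : ∀ z, φ (σ z) = σ (φ z))
    (hinj : ∀ i < D, ∀ j < D, (φ : E → E)^[i] t = (φ : E → E)^[j] t → i = j)
    (h1t : 1 + t ≠ 0)
    (l : List E) (hl : ∀ c ∈ l, GoodL σ φ c) (hch : l.IsChain (fun a b => b ≠ -a))
    (hlen : l.length = 2 * m) (hm : 1 ≤ m) (hmD : m < 2 * D) :
    TE t l (1, 0) ≠ ((1 + t) ^ m, 0) := by
  intro hTE
  obtain ⟨n1, n2, n3, n4, n5⟩ := GoodP.list l hl (GoodP.start (σ := σ) (φ := φ))
  have hev := PE_eval t l ((1, 0) : E[X] × E[X])
  simp only [eval_one, eval_zero] at hev
  rw [hTE] at hev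
  set a := (PE l ((1, 0) : E[X] × E[X])).1 with ha
  set b := (PE l ((1, 0) : E[X] × E[X])).2 with hb
  rw [zero_add, hlen] at n1 n4 n5
  have hat : a.eval t = (1 + t) ^ m := congrArg Prod.fst hev
  have hbt : b.eval t = 0 := congrArg Prod.snd hev
  -- values of the conjugates
  have hconj : ∀ f : E[X], (f.map σ).eval t = σ (f.eval t) := by
    intro f
    have := Polynomial.eval_map_apply (f := σ) (p := f) (x := t)
    rw [ht] at this
    exact this
  have hkσ : σ ((1 + t) ^ m) = (1 + t) ^ m := by rw [map_pow, map_add, map_one, ht]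
  have hat' : (a.map σ).eval t = (1 + t) ^ m := by rw [hconj, hat, hkσ]
  have hbt' : (b.map σ).eval t = 0 := by rw [hconj, hbt, map_zero]
  set P : E[X] := a + a.map σ - 2 * (1 + X) ^ m with hP
  have hPt : P.eval t = 0 := by
    rw [hP]
    simp only [eval_sub, eval_add, eval_mul, eval_pow, eval_one, eval_X, eval_ofNat, hat, hat']
    ring
  have hPt' : (derivative P).eval t = 0 := by
    have h2 := congrArg (fun f => (derivative f).eval t) n1
    simp only [derivative_add, derivative_mul, derivative_X, derivative_pow, derivative_one,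
      eval_add, eval_mul, eval_pow, eval_one, eval_X, eval_zero, hat, hat', hbt,
      hbt', map_natCast, eval_natCast] at h2
    rw [hP]
    simp only [derivative_sub, derivative_add, derivative_mul, derivative_pow, derivative_one,
      derivative_X, derivative_ofNat, eval_sub, eval_add, eval_mul, eval_pow, eval_one, eval_X,
      eval_ofNat, eval_zero, map_natCast, eval_natCast]
    have h3 : (1 + t) ^ (2 * m - 1) = (1 + t) ^ m * (1 + t) ^ (m - 1) := by
      rw [← pow_add]
      congr 1
      omega
    rw [h3] at h2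
    have h4 : (1 + t) ^ m ≠ 0 := pow_ne_zero _ h1t
    apply mul_left_cancel₀ h4
    push_cast at h2
    linear_combination h2
  have hPφ : P.map φ = P := by
    rw [hP]
    simp only [Polynomial.map_sub, Polynomial.map_add, Polynomial.map_mul, Polynomial.map_pow,
      Polynomial.map_one, map_X, Polynomial.map_ofNat, n2]
    congr 2
    rw [Polynomial.map_map]
    have : (φ.comp σ) = σ.comp φ := by
      ext z
      exact hcomm z
    rw [this, ← Polynomial.map_map, n2]
  have hroot : ∀ i, P.eval ((φ : E → E)^[i] t) = 0 ∧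
      (derivative P).eval ((φ : E → E)^[i] t) = 0 := by
    intro i
    induction i with
    | zero => exact ⟨hPt, hPt'⟩
    | succ i ih =>
      rw [Function.iterate_succ_apply']
      constructor
      · have := Polynomial.eval_map_apply (f := φ) (p := P) (x := (φ : E → E)^[i] t)
        rw [hPφ] at this
        rw [this, ih.1, map_zero]
      · have := Polynomial.eval_map_apply (f := φ) (p := derivative P)
          (x := (φ : E → E)^[i] t)
        rw [← derivative_map, hPφ] at this
        rw [this, ih.2, map_zero]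
  have hdeg : P.natDegree ≤ m := by
    have d1 : a.natDegree ≤ m := by omega
    have d2 : (a.map σ).natDegree ≤ m := (natDegree_map_le).trans d1
    have d3 : (2 * (1 + X) ^ m : E[X]).natDegree ≤ m := by
      refine natDegree_mul_le.trans ?_
      have e1 : (2 : E[X]).natDegree = 0 := natDegree_ofNat 2
      rw [e1, zero_add]
      refine natDegree_pow_le.trans ?_
      have e2 : (1 + X : E[X]).natDegree ≤ 1 := by
        refine (natDegree_add_le _ _).trans ?_
        simp
      calc m * (1 + X : E[X]).natDegree ≤ m * 1 := Nat.mul_le_mul_left _ e2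
        _ = m := mul_one m
    have d4 := natDegree_add_le_of_le d1 d2
    have d5 := natDegree_sub_le_of_le d4 d3
    simpa using d5
  have hP0 : P = 0 := by
    by_contra hne
    have := two_mul_le_natDegree hne (D := D) (fun i => (φ : E → E)^[i] t) hinj
      (fun i _ => (hroot i).1) (fun i _ => (hroot i).2)
    omega
  -- u ^ 2 = X b b̄
  have haσ : a.map σ = 2 * (1 + X) ^ m - a := by
    have := hP0
    rw [hP] at this
    linear_combination this
  have hu : (a - (1 + X) ^ m) ^ 2 = X * (b * b.map σ) := by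
    rw [haσ] at n1
    have h5 : ((1 : E[X]) + X) ^ (2 * m) = ((1 + X) ^ m) ^ 2 := by
      rw [← pow_mul]
      congr 1
      ring
    rw [h5] at n1
    linear_combination -n1
  have hb0 : b = 0 := by
    by_contra hbne
    have hbσ : b.map σ ≠ 0 := by
      rwa [Ne, Polynomial.map_eq_zero]
    have h6 := congrArg natDegree hu
    rw [natDegree_pow, natDegree_X_mul (mul_ne_zero hbne hbσ),
      natDegree_mul hbne hbσ, natDegree_map] at h6
    omega
  have ha0 : a = (1 + X) ^ m := by
    rw [hb0] at hu
    simp only [zero_mul, mul_zero] at hu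
    have := pow_eq_zero_iff (n := 2) (by norm_num) |>.mp hu
    exact sub_eq_zero.mp this
  have hz : a.eval (-1) = 0 := by
    rw [ha0]
    simp only [eval_pow, eval_add, eval_one, eval_X]
    rw [show (1 : E) + -1 = 0 by ring]
    exact zero_pow (by omega)
  -- nonvanishing
  cases l with
  | nil => simp at hlen; omega
  | cons c l =>
    have hc : c ≠ 0 := (hl c (by simp)).1
    have := NV_list l (fun c hc => (hl c (by simp [hc])).1) c hch (PT c (1, 0))
      (by simp [PT]) (by simp [PT])
    apply this
    rw [ha] at hz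
    simpa [PE] using hz

end alg

end Pool.Agent.GRH
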