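import Pool.Agent.GRH.Alg

/-!
The bipartite base system on vectors of norm `1` and `1 + t`.
-/

namespace Pool.Agent.GRH

open Polynomial

section base

variable {E : Type*} [Field E]

/-- the vertex set -/
def Vt (σ : E →+* E) (t : E) : Type _ :=
  {z : (E × E) × Bool // nrm σ t z.1 = if z.2 then 1 + t else 1}

instance [Finite E] (σ : E →+* E) (t : E) : Finite (Vt σ t) := by
  unfold Vt
  infer_instance

theorem nrm_smul (σ : E →+* E) (t k : E) (v : E × E) :
    nrm σ t (k * v.1, k * v.2) = k * σ k * nrm σ t v := by
  simp only [nrm, map_mul]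
  ring

theorem T_neg_T {t c : E} (hc : c ≠ 0) (v : E × E) :
    T t (-c) (T t c v) = ((1 + t) * v.1, (1 + t) * v.2) := by
  simp only [T, Prod.mk.injEq, inv_neg]
  constructor <;> field_simp <;> ring

theorem T_T_neg {t c : E} (hc : c ≠ 0) (v : E × E) :
    T t c (T t (-c) v) = ((1 + t) * v.1, (1 + t) * v.2) := by
  have h := T_neg_T (t := t) (neg_ne_zero.mpr hc) v
  rwa [neg_neg] at h

/-- raw colour maps on `(E × E) × Bool` -/
noncomputable def rawμ (t : E) (c : E) (z : (E × E) × Bool) : (E × E) × Bool :=
  if z.2 then (((1 + t)⁻¹ * (T t (-c) z.1).1, (1 + t)⁻¹ * (T t (-c) z.1).2), false)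
  else (T t c z.1, true)

theorem rawμ_mem {σ φ : E →+* E} {t c : E} (ht : σ t = t) (h1t : 1 + t ≠ 0)
    (hc : GoodL σ φ c) (z : (E × E) × Bool) (hz : nrm σ t z.1 = if z.2 then 1 + t else 1) :
    nrm σ t (rawμ t c z).1 = if (rawμ t c z).2 then 1 + t else 1 := by
  obtain ⟨v, s⟩ := z
  cases s
  · simp only [rawμ, Bool.false_eq_true, if_false, if_true] at hz ⊢
    rw [nrm_T ht hc, hz, mul_one]
  · simp only [rawμ, if_true] at hz ⊢
    rw [nrm_smul, nrm_T ht hc.neg, hz, map_inv₀, map_add, map_one, ht]
    simp only [Bool.false_eq_true, if_false]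
    field_simp

theorem rawμ_inv {t c : E} (h1t : 1 + t ≠ 0) (hc : c ≠ 0) (z : (E × E) × Bool) :
    rawμ t c (rawμ t c z) = z := by
  obtain ⟨v, s⟩ := z
  cases s
  · simp only [rawμ, Bool.false_eq_true, if_false, if_true]
    rw [T_neg_T hc]
    simp only [Prod.mk.injEq, and_true]
    apply Prod.ext
    · simp only; field_simp
    · simp only; field_simp
  · simp only [rawμ, if_true, Bool.false_eq_true, if_false]
    rw [T_smul, T_T_neg hc]
    simp only [Prod.mk.injEq, and_true]
    apply Prod.ext
    · simp only; field_simp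
    · simp only; field_simp

variable {d : ℕ}

/-- the base system -/
noncomputable def bsys {σ φ : E →+* E} {t : E} (ht : σ t = t) (h1t : 1 + t ≠ 0)
    (γ : Fin d → E) (hγ : ∀ i, GoodL σ φ (γ i)) : Fin d → Vt σ t → Vt σ t :=
  fun i z => ⟨rawμ t (γ i) z.1, rawμ_mem ht h1t (hγ i) z.1 z.2⟩

/-- letters seen along a word -/
def lets (γ : Fin d → E) : Bool → List (Fin d) → List E
  | _, [] => []
  | s, i :: l => (if s then -γ i else γ i) :: lets γ (!s) l

theorem lets_length (γ : Fin d → E) (s : Bool) (l : List (Fin d)) :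
    (lets γ s l).length = l.length := by
  induction l generalizing s with
  | nil => rfl
  | cons i l ih => simp [lets, ih]

theorem lets_good {σ φ : E →+* E} (γ : Fin d → E) (hγ : ∀ i, GoodL σ φ (γ i)) (s : Bool)
    (l : List (Fin d)) : ∀ c ∈ lets γ s l, GoodL σ φ c := by
  induction l generalizing s with
  | nil => simp [lets]
  | cons i l ih =>
    intro c hc
    simp only [lets, List.mem_cons] at hc
    rcases hc with rfl | hc
    · cases s
      · simpa using hγ i
      · simpa using (hγ i).neg
    · exact ih _ c hc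

theorem lets_chain (γ : Fin d → E) (hinj : Function.Injective γ) (s : Bool)
    (l : List (Fin d)) (hl : l.IsChain (· ≠ ·)) :
    (lets γ s l).IsChain (fun a b => b ≠ -a) := by
  induction l generalizing s with
  | nil => exact List.isChain_nil
  | cons i l ih =>
    rw [List.isChain_cons] at hl
    simp only [lets]
    rw [List.isChain_cons]
    refine ⟨?_, ih _ hl.2⟩
    intro y hy
    cases l with
    | nil => simp [lets] at hy
    | cons j l =>
      have hij : i ≠ j := hl.1 j (by simp)
      simp only [lets, List.head?_cons, Option.mem_def, Option.some.injEq] at hy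
      subst hy
      cases s
      · simp only [Bool.not_false, if_true, Bool.false_eq_true, if_false]
        intro h
        exact hij (hinj (neg_injective h)).symm
      · simp only [Bool.not_true, if_true, Bool.false_eq_true, if_false, neg_neg]
        intro h
        exact hij (hinj h).symm

theorem bsys_act {σ φ : E →+* E} {t : E} (ht : σ t = t) (h1t : 1 + t ≠ 0)
    (γ : Fin d → E) (hγ : ∀ i, GoodL σ φ (γ i)) (l : List (Fin d)) (z : Vt σ t) :
    (act (bsys ht h1t γ hγ) l z).1.2 = (if l.length % 2 = 0 then z.1.2 else !z.1.2) ∧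
    TE t (lets γ z.1.2 l) z.1.1 =
      ((1 + t) ^ ((l.length + (if z.1.2 then 1 else 0)) / 2) * (act (bsys ht h1t γ hγ) l z).1.1.1,
       (1 + t) ^ ((l.length + (if z.1.2 then 1 else 0)) / 2) *
        (act (bsys ht h1t γ hγ) l z).1.1.2) := by
  induction l generalizing z with
  | nil =>
    refine ⟨by simp [act], ?_⟩
    have : (if z.1.2 then 1 else 0) / 2 = 0 := by split_ifs <;> simp
    simp only [List.length_nil, zero_add, this, pow_zero, one_mul, act, lets, TE]
  | cons i l ih =>
    obtain ⟨ih1, ih2⟩ := ih (bsys ht h1t γ hγ i z)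
    obtain ⟨⟨v, s⟩, hz⟩ := z
    cases s
    · have e1 : (bsys ht h1t γ hγ i ⟨(v, false), hz⟩).1 = (T t (γ i) v, true) := by
        simp [bsys, rawμ]
      rw [e1] at ih1 ih2
      simp only [act]
      constructor
      · rw [ih1]
        simp only [List.length_cons]
        have h2 := Nat.mod_two_eq_zero_or_one l.length
        rcases h2 with h2 | h2
        · have h3 : (l.length + 1) % 2 = 1 := by omega
          simp [h2, h3]
        · have h3 : (l.length + 1) % 2 = 0 := by omega
          simp [h2, h3]
      · simp only [lets, TE, Bool.false_eq_true, if_false, Bool.not_false, List.length_cons,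
          add_zero]
        simp only [if_true] at ih2
        exact ih2
    · have e1 : (bsys ht h1t γ hγ i ⟨(v, true), hz⟩).1 =
          (((1 + t)⁻¹ * (T t (-γ i) v).1, (1 + t)⁻¹ * (T t (-γ i) v).2), false) := by
        simp [bsys, rawμ]
      rw [e1] at ih1 ih2
      simp only [act]
      constructor
      · rw [ih1]
        simp only [List.length_cons]
        have h2 := Nat.mod_two_eq_zero_or_one l.length
        rcases h2 with h2 | h2
        · have h3 : (l.length + 1) % 2 = 1 := by omega
          simp [h2, h3]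
        · have h3 : (l.length + 1) % 2 = 0 := by omega
          simp [h2, h3]
      · simp only [lets, TE, if_true, Bool.not_true, List.length_cons]
        simp only [Bool.false_eq_true, if_false, add_zero] at ih2
        rw [TE_smul] at ih2
        have f1 := congrArg Prod.fst ih2
        have f2 := congrArg Prod.snd ih2
        simp only at f1 f2
        have h4 : (l.length + 1 + 1) / 2 = l.length / 2 + 1 := by omega
        rw [h4, pow_succ]
        apply Prod.ext
        · simp only
          rw [mul_right_comm, ← f1]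
          field_simp
        · simp only
          rw [mul_right_comm, ← f2]
          field_simp

theorem bsys_inv {σ φ : E →+* E} {t : E} (ht : σ t = t) (h1t : 1 + t ≠ 0)
    (γ : Fin d → E) (hγ : ∀ i, GoodL σ φ (γ i)) : Inv (bsys ht h1t γ hγ) := by
  intro i z
  apply Subtype.ext
  exact rawμ_inv h1t (hγ i).1 z.1

theorem bsys_WG {σ φ : E →+* E} {t : E} {D : ℕ} (ht : σ t = t) (h1t : 1 + t ≠ 0)
    (hcomm : ∀ z, φ (σ z) = σ (φ z))
    (hinj : ∀ i < D, ∀ j < D, (φ : E → E)^[i] t = (φ : E → E)^[j] t → i = j)
    (γ : Fin d → E) (hγ : ∀ i, GoodL σ φ (γ i)) (hγi : Function.Injective γ) :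
    WG (bsys ht h1t γ hγ) (4 * D) := by
  intro l hl hlen hch z hz
  obtain ⟨b1, b2⟩ := bsys_act ht h1t γ hγ l z
  rw [hz] at b1 b2
  have hpar : l.length % 2 = 0 := by
    by_contra hne
    rw [if_neg hne] at b1
    cases h : z.1.2 <;> simp [h] at b1
  obtain ⟨m, hm⟩ : ∃ m, l.length = 2 * m := ⟨l.length / 2, by omega⟩
  have hl1 : 1 ≤ l.length := List.length_pos_iff.mpr hl
  have h5 : (l.length + (if z.1.2 then 1 else 0)) / 2 = m := by
    split_ifs <;> omega
  rw [h5] at b2
  have hnz : nrm σ t z.1.1 ≠ 0 := by
    rw [z.2]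
    split_ifs
    · exact h1t
    · exact one_ne_zero
  have hk : σ ((1 + t) ^ m) = (1 + t) ^ m := by rw [map_pow, map_add, map_one, ht]
  have h6 := TE_one ht (lets γ z.1.2 l) (lets_good γ hγ _ l) z.1.1 hnz hk b2
  refine word_ne ht hcomm hinj h1t (lets γ z.1.2 l) (lets_good γ hγ _ l)
    (lets_chain γ hγi _ l hch) ?_ ?_ ?_ h6
  · rw [lets_length, hm]
  · omega
  · omega

end base

/-- a finite type with a fixed point free involution has an even number of elements -/
theorem even_card_of_inv {V : Type*} [Fintype V] (f : V → V) (h1 : ∀ v, f (f v) = v)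
    (h2 : ∀ v, f v ≠ v) : Even (Fintype.card V) := by
  classical
  have h : ((Fintype.card V : ℕ) : ZMod 2) = 0 := by
    have h3 : ∑ _v : V, (1 : ZMod 2) = 0 := by
      refine Finset.sum_involution (fun v _ => f v) ?_ ?_ ?_ ?_
      · intro a _
        decide
      · intro a _ _
        exact h2 a
      · intro a _
        exact Finset.mem_univ _
      · intro a _
        exact h1 a
    simpa using h3
  rwa [ZMod.natCast_eq_zero_iff_even] at h

/-- counting the vertices -/
theorem card_Vt {E : Type*} [Field E] [Fintype E] {σ : E →+* E} {t : E} {Q : ℕ}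
    (hσ : ∀ z, σ z = z ^ Q) [Fintype (Vt σ t)] :
    Fintype.card (Vt σ t) ≤ 2 * Fintype.card E * (Q + 1) := by
  classical
  set A : Finset ((E × E) × Bool) :=
    Finset.univ.filter (fun z => nrm σ t z.1 = if z.2 then 1 + t else 1) with hA
  have hcard : Fintype.card (Vt σ t) = A.card := by
    have : Fintype.card (Vt σ t) =
        Fintype.card {z : (E × E) × Bool // nrm σ t z.1 = if z.2 then 1 + t else 1} :=
      Fintype.card_congr (Equiv.refl _)
    rw [this, Fintype.card_subtype]
  rw [hcard]
  have h := Finset.card_le_mul_card_image (f := fun z : (E × E) × Bool => (z.1.2, z.2)) A (Q + 1)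
    (by
      intro y _
      set c : E := (if y.2 then 1 + t else 1) - t * (y.1 * σ y.1) with hc
      have hsub : ∀ x ∈ A.filter (fun z => (z.1.2, z.2) = y), x.1.1 ∈
          (nthRoots (Q + 1) c).toFinset := by
        intro x hx
        rw [Finset.mem_filter, hA, Finset.mem_filter] at hx
        obtain ⟨⟨-, hx1⟩, hx2⟩ := hx
        rw [Multiset.mem_toFinset, mem_nthRoots (Nat.succ_pos Q)]
        have e1 : x.1.2 = y.1 := congrArg Prod.fst hx2
        have e2 : x.2 = y.2 := congrArg Prod.snd hx2
        rw [hc, ← e1, ← e2, ← hx1]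
        simp only [nrm]
        rw [hσ x.1.1, pow_succ]
        ring
      have hinj : Set.InjOn (fun x : (E × E) × Bool => x.1.1)
          (A.filter (fun z => (z.1.2, z.2) = y)) := by
        intro x hx x' hx' hxx
        rw [Finset.mem_coe, Finset.mem_filter] at hx hx'
        have e1 : x.1.2 = y.1 := congrArg Prod.fst hx.2
        have e2 : x.2 = y.2 := congrArg Prod.snd hx.2
        have e3 : x'.1.2 = y.1 := congrArg Prod.fst hx'.2
        have e4 : x'.2 = y.2 := congrArg Prod.snd hx'.2
        apply Prod.ext
        · apply Prod.ext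
          · exact hxx
          · rw [e1, e3]
        · rw [e2, e4]
      calc (A.filter (fun z => (z.1.2, z.2) = y)).card
          ≤ (nthRoots (Q + 1) c).toFinset.card :=
            Finset.card_le_card_of_injOn _ hsub hinj
        _ ≤ Multiset.card (nthRoots (Q + 1) c) := Multiset.toFinset_card_le _
        _ ≤ Q + 1 := card_nthRoots _ _)
  refine h.trans ?_
  have h2 : (A.image (fun z : (E × E) × Bool => (z.1.2, z.2))).card ≤ Fintype.card E * 2 := by
    refine (Finset.card_le_univ _).trans ?_
    rw [Fintype.card_prod, Fintype.card_bool]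
  calc (Q + 1) * (A.image (fun z : (E × E) × Bool => (z.1.2, z.2))).card
      ≤ (Q + 1) * (Fintype.card E * 2) := Nat.mul_le_mul_left _ h2
    _ = 2 * Fintype.card E * (Q + 1) := by ring

end Pool.Agent.GRH
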