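import Pool.Agent.GRH.Base

/-!
The base system over finite fields.
-/

namespace Pool.Agent.GRH

open Polynomial

theorem exists_base (p n D δ : ℕ) [hp : Fact p.Prime] (hn : 1 ≤ n) (hD : Odd D) (hD3 : 3 ≤ D)
    (hδ1 : 1 ≤ δ) (hδ : δ ≤ p ^ n + 1) :
    ∃ (V : Type) (_ : Fintype V) (μ : Fin δ → V → V), Inv μ ∧ WG μ (4 * D) ∧
      Even (Fintype.card V) ∧ 0 < Fintype.card V ∧ Fintype.card V ≤ 4 * (p ^ n) ^ (3 * D) := by
  classical
  have hp2 : 2 ≤ p := hp.out.two_le
  set q := p ^ n with hq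
  set Q := q ^ D with hQ
  have hq2 : 2 ≤ q := by
    rw [hq]
    calc 2 ≤ p := hp2
      _ = p ^ 1 := (pow_one p).symm
      _ ≤ p ^ n := Nat.pow_le_pow_right (by omega) hn
  have hQ8 : 8 ≤ Q := by
    rw [hQ]
    calc 8 = 2 ^ 3 := by norm_num
      _ ≤ q ^ 3 := Nat.pow_le_pow_left hq2 3
      _ ≤ q ^ D := Nat.pow_le_pow_right (by omega) hD3
  have hne : 2 * (n * D) ≠ 0 := by positivity
  let E := GaloisField p (2 * (n * D))
  let _ : Fintype E := Fintype.ofFinite E
  have hcardE : Fintype.card E = Q * Q := by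
    rw [← Nat.card_eq_fintype_card, GaloisField.card p _ hne, hQ, hq, ← pow_mul, ← pow_add]
    congr 1
    ring
  -- generator of the unit group
  obtain ⟨g, hg⟩ := IsCyclic.exists_generator (α := Eˣ)
  have hordg : orderOf g = Q * Q - 1 := by
    rw [orderOf_eq_card_of_forall_mem_zpowers hg, Nat.card_eq_fintype_card, Fintype.card_units,
      hcardE]
  have hfac : Q * Q - 1 = (Q + 1) * (Q - 1) := by
    obtain ⟨k, hk⟩ : ∃ k, Q = k + 1 := ⟨Q - 1, by omega⟩
    rw [hk]
    simp only [Nat.add_sub_cancel]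
    have : (k + 1) * (k + 1) = (k + 1 + 1) * k + 1 := by ring
    omega
  have hqQ : (q + 1) ∣ (Q + 1) := by
    have := Odd.nat_add_dvd_pow_add_pow q 1 hD
    rwa [one_pow] at this
  have hq1 : (q + 1) ∣ (q * q - 1) := by
    obtain ⟨k, hk⟩ : ∃ k, q = k + 1 := ⟨q - 1, by omega⟩
    rw [hk]
    refine ⟨k, ?_⟩
    have : (k + 1) * (k + 1) = (k + 1 + 1) * k + 1 := by ring
    omega
  have hdvd1 : (q + 1) ∣ Q * Q - 1 := by
    rw [hfac]
    exact Dvd.dvd.mul_right hqQ _
  obtain ⟨e1, he1⟩ := hdvd1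
  have he1pos : 0 < e1 := by
    rcases Nat.eq_zero_or_pos e1 with h | h
    · rw [h, mul_zero] at he1
      have : 64 ≤ Q * Q := Nat.mul_le_mul hQ8 hQ8
      omega
    · exact h
  set ζ : Eˣ := g ^ e1 with hζ
  have hordζ : orderOf ζ = q + 1 := by
    rw [hζ, orderOf_pow_of_dvd he1pos.ne' (by rw [hordg, he1]; exact dvd_mul_left _ _), hordg, he1]
    exact Nat.mul_div_cancel _ he1pos
  set τ : Eˣ := g ^ (Q + 1) with hτ
  have hordτ : orderOf τ = Q - 1 := by
    rw [hτ, orderOf_pow_of_dvd (by omega) (by rw [hordg, hfac]; exact dvd_mul_right _ _), hordg,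
      hfac]
    exact Nat.mul_div_cancel_left _ (by omega)
  set t : E := (τ : E) with ht
  -- Frobenius maps
  let σ : E →+* E := iterateFrobenius E p (n * D)
  let φ : E →+* E := iterateFrobenius E p (2 * n)
  let ψ : E →+* E := iterateFrobenius E p n
  have hσ : ∀ z, σ z = z ^ Q := by
    intro z
    rw [hQ, hq, ← pow_mul]
    exact iterateFrobenius_def p (n * D) z
  have hφ : ∀ z, φ z = z ^ (q * q) := by
    intro z
    have : q * q = p ^ (2 * n) := by rw [hq, ← pow_add]; congr 1; ring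
    rw [this]
    exact iterateFrobenius_def p (2 * n) z
  have hψ : ∀ z, ψ z = z ^ q := by
    intro z
    exact iterateFrobenius_def p n z
  have htQ : t ^ (Q - 1) = 1 := by
    rw [ht, ← Units.val_pow_eq_pow_val, ← hordτ, pow_orderOf_eq_one, Units.val_one]
  have hσt : σ t = t := by
    rw [hσ]
    calc t ^ Q = t ^ (Q - 1 + 1) := by congr 1; omega
      _ = t := by rw [pow_succ, htQ, one_mul]
  have ht_dvd : ∀ k, t ^ k = 1 → (Q - 1) ∣ k := by
    intro k hk
    rw [← hordτ]
    apply orderOf_dvd_of_pow_eq_one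
    apply Units.ext
    rw [Units.val_pow_eq_pow_val, Units.val_one]
    exact hk
  have h1t : 1 + t ≠ 0 := by
    intro h
    have h2 : t = -1 := by linear_combination h
    have h3 : t ^ 2 = 1 := by rw [h2]; ring
    have := Nat.le_of_dvd (by norm_num) (ht_dvd 2 h3)
    omega
  have hcomm : ∀ z, φ (σ z) = σ (φ z) := by
    intro z
    rw [hφ, hσ, hσ, hφ, ← pow_mul, ← pow_mul, mul_comm Q (q * q)]
  -- t has full degree
  have ht0 : t ≠ 0 := by rw [ht]; exact τ.ne_zero
  have hψiter : ∀ k z, (ψ : E → E)^[k] z = z ^ (q ^ k) := by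
    intro k z
    induction k with
    | zero => simp
    | succ k ih => rw [Function.iterate_succ_apply', ih, hψ, ← pow_mul, pow_succ]
  have hφiter : ∀ k z, (φ : E → E)^[k] z = (ψ : E → E)^[2 * k] z := by
    intro k z
    rw [hψiter]
    induction k with
    | zero => simp
    | succ k ih =>
      rw [Function.iterate_succ_apply', ih, hφ, ← pow_mul]
      congr 1
      ring
  have hper : Function.IsPeriodicPt (ψ : E → E) D t := by
    unfold Function.IsPeriodicPt Function.IsFixedPt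
    rw [hψiter, ← hQ, ← hσ, hσt]
  have hnoper : ∀ e, 0 < e → e < D → ¬ Function.IsPeriodicPt (ψ : E → E) (2 * e) t := by
    intro e he heD hpe
    have h1 := hpe.gcd hper
    have hgcd : Nat.gcd (2 * e) D = Nat.gcd e D := by
      apply Nat.Coprime.gcd_mul_left_cancel
      exact hD.coprime_two_left
    rw [hgcd] at h1
    set f := Nat.gcd e D with hf
    have hf0 : 0 < f := Nat.gcd_pos_of_pos_left _ he
    have hfe : f ≤ e := Nat.gcd_le_left _ he
    unfold Function.IsPeriodicPt Function.IsFixedPt at h1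
    rw [hψiter] at h1
    have hqf : q ≤ q ^ f := by
      calc q = q ^ 1 := (pow_one q).symm
        _ ≤ q ^ f := Nat.pow_le_pow_right (by omega) hf0
    have h2 : t ^ (q ^ f - 1) = 1 := by
      apply mul_right_cancel₀ ht0
      rw [← pow_succ, one_mul]
      rw [show q ^ f - 1 + 1 = q ^ f by omega]
      exact h1
    have h3 := Nat.le_of_dvd (by omega) (ht_dvd _ h2)
    have h4 : q ^ f < q ^ D := Nat.pow_lt_pow_right (by omega) (by omega)
    rw [← hQ] at h4
    omega
  have hinj : ∀ i < D, ∀ j < D, (φ : E → E)^[i] t = (φ : E → E)^[j] t → i = j := by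
    have main : ∀ i j, i < j → j < D → (φ : E → E)^[i] t ≠ (φ : E → E)^[j] t := by
      intro i j hij hj h
      have hji : j = i + (j - i) := by omega
      rw [hji, Function.iterate_add_apply] at h
      have hinjφ : Function.Injective ((φ : E → E)^[i]) := (φ.injective).iterate i
      have h2 := hinjφ h
      rw [hφiter] at h2
      exact hnoper (j - i) (by omega) (by omega) h2.symm
    intro i hi j hj h
    rcases lt_trichotomy i j with h1 | h1 | h1
    · exact absurd h (main i j h1 hj)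
    · exact h1
    · exact absurd h.symm (main j i h1 hi)
  -- letters
  let γ : Fin δ → E := fun i => ((ζ ^ (i : ℕ) : Eˣ) : E)
  have hζpow : ∀ k : ℕ, (q + 1) ∣ k → ∀ i : ℕ, (((ζ ^ i : Eˣ) : E)) ^ k = 1 := by
    intro k hk i
    rw [← Units.val_pow_eq_pow_val, ← pow_mul, mul_comm i k, pow_mul]
    have : ζ ^ k = 1 := by
      rw [← hordζ] at hk
      exact orderOf_dvd_iff_pow_eq_one.mp hk
    rw [this, one_pow, Units.val_one]
  have hγ : ∀ i, GoodL σ φ (γ i) := by
    intro i
    have hne0 : γ i ≠ 0 := (ζ ^ (i : ℕ)).ne_zero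
    refine ⟨hne0, ?_, ?_⟩
    · rw [hσ]
      apply eq_inv_of_mul_eq_one_left
      rw [← pow_succ]
      exact hζpow (Q + 1) hqQ i
    · rw [hφ]
      have h1 := hζpow (q * q - 1) hq1 i
      have : (γ i) ^ (q * q) = (γ i) ^ (q * q - 1) * γ i := by
        rw [← pow_succ]
        congr 1
        have : 4 ≤ q * q := Nat.mul_le_mul hq2 hq2
        omega
      rw [this]
      change (γ i) ^ (q * q - 1) = 1 at h1
      rw [h1, one_mul]
  have hγi : Function.Injective γ := by
    intro i j hij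
    have h1 : ζ ^ (i : ℕ) = ζ ^ (j : ℕ) := Units.ext hij
    have h2 := pow_inj_mod.mp h1
    rw [hordζ, Nat.mod_eq_of_lt (by have := i.2; omega), Nat.mod_eq_of_lt (by have := j.2; omega)]
      at h2
    exact Fin.ext h2
  let _ : Fintype (Vt σ t) := Fintype.ofFinite _
  have hWG := bsys_WG (D := D) hσt h1t hcomm hinj γ hγ hγi
  refine ⟨Vt σ t, inferInstance, bsys hσt h1t γ hγ, bsys_inv _ _ _ _, hWG, ?_, ?_, ?_⟩
  · refine even_card_of_inv (bsys hσt h1t γ hγ ⟨0, hδ1⟩) (bsys_inv _ _ _ _ _) ?_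
    intro v
    exact hWG [⟨0, hδ1⟩] (by simp) (by simp; omega) (List.isChain_singleton _) v
  · rw [Fintype.card_pos_iff]
    exact ⟨⟨((1, 0), false), by simp [nrm]⟩⟩
  · refine (card_Vt hσ).trans ?_
    rw [hcardE]
    have h3 : q ^ (3 * D) = Q * Q * Q := by
      rw [hQ, ← pow_add, ← pow_add]
      congr 1
      ring
    rw [h3]
    have h4 : Q + 1 ≤ 2 * Q := by omega
    calc 2 * (Q * Q) * (Q + 1) ≤ 2 * (Q * Q) * (2 * Q) := Nat.mul_le_mul_left _ h4
      _ = 4 * (Q * Q * Q) := by ring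

end Pool.Agent.GRH
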