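import Pool.Agent.GRH.Rem
import Pool.Agent.GRH.Fld

/-!
Numerics and the two main theorems.
-/

namespace Pool.Agent.GRH

open Classical

theorem main_nat {q δ g n : ℕ} (hq : IsPrimePow q) (hδ1 : 1 ≤ δ) (hδ : δ ≤ q + 1) (hg : 3 ≤ g)
    (hn : Even n) {D ρ : ℕ} (hD : Odd D) (hD3 : 3 ≤ D) (hρ1 : 1 ≤ ρ) (hρ : ρ + 2 ≤ 4 * D)
    (hnum : (ρ + 2) * g + ρ < ρ * (4 * D) + 4) (hbig : q ^ (2 * (ρ + 1) + (3 * D + 2)) ≤ n) :
    ∃ G : SimpleGraph (Fin n), G.IsRegularOfDegree δ ∧ (g : ℕ∞) ≤ G.egirth := by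
  rw [isPrimePow_nat_iff] at hq
  obtain ⟨p, k, hp, hk, rfl⟩ := hq
  haveI : Fact p.Prime := ⟨hp⟩
  obtain ⟨V, hV, μ, hinv, hWG, hev, hpos, hle⟩ := exists_base p k D δ hk hD hD3 hδ1 hδ
  have hq2 : 2 ≤ p ^ k := by
    calc 2 ≤ p := hp.two_le
      _ = p ^ 1 := (pow_one p).symm
      _ ≤ p ^ k := Nat.pow_le_pow_right (by have := hp.two_le; omega) hk
  refine all_orders hδ1 hinv hWG hρ1 hρ hnum hg hev hpos hn ?_
  refine le_trans ?_ hbig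
  have h1 : δ + 1 ≤ (p ^ k) ^ 2 := by nlinarith
  have h2 : (δ + 1) ^ (ρ + 1) ≤ (p ^ k) ^ (2 * (ρ + 1)) := by
    rw [pow_mul]
    exact Nat.pow_le_pow_left h1 _
  have h3 : Fintype.card V ≤ (p ^ k) ^ (3 * D + 2) := by
    refine hle.trans ?_
    rw [pow_add, mul_comm]
    apply Nat.mul_le_mul_left
    nlinarith
  rw [pow_add (p ^ k) (2 * (ρ + 1)) (3 * D + 2)]
  exact Nat.mul_le_mul h2 h3

theorem main_real {q δ g n : ℕ} (hq : IsPrimePow q) (hδ1 : 1 ≤ δ) (hδ : δ ≤ q + 1) (hg : 3 ≤ g)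
    (hn : Even n) (hbig : (q : ℝ) ^ ((3 / 4 : ℝ) * g + 13 * √(g : ℝ)) ≤ n) :
    ∃ G : SimpleGraph (Fin n), G.IsRegularOfDegree δ ∧ (g : ℕ∞) ≤ G.egirth := by
  set s := Nat.sqrt g with hs
  set ρ := s + 1 with hρd
  set A := (ρ + 2) * g + ρ with hA
  set B := A / (8 * ρ) with hB
  set D := 2 * (B + 1) + 1 with hD
  have hρ1 : 1 ≤ ρ := by omega
  have hs1 : s * s ≤ g := Nat.sqrt_le g
  have hs2 : g < (s + 1) * (s + 1) := Nat.lt_succ_sqrt g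
  have hB1 : A < 8 * ρ * (B + 1) := by
    have h := Nat.div_add_mod A (8 * ρ)
    have h2 := Nat.mod_lt A (show 0 < 8 * ρ by omega)
    rw [← hB] at h
    rw [mul_add, mul_one]
    omega
  have hB2 : 8 * ρ * B ≤ A := by
    have h := Nat.div_add_mod A (8 * ρ)
    rw [← hB] at h
    omega
  have hAD : A ≤ ρ * (4 * D) := by
    have : ρ * (4 * D) = 8 * ρ * (B + 1) + 4 * ρ := by rw [hD]; ring
    omega
  have hgD : g + 1 ≤ 4 * D := by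
    by_contra hlt
    push Not at hlt
    have h1 : ρ * (4 * D) ≤ ρ * g := Nat.mul_le_mul_left _ (by omega)
    have h2 : A = ρ * g + 2 * g + ρ := by rw [hA]; ring
    omega
  have hsg : s + 1 ≤ g := by nlinarith
  have hD3 : 3 ≤ D := by
    have h0 : 0 ≤ B := Nat.zero_le B
    calc 3 = 2 * (0 + 1) + 1 := rfl
      _ ≤ 2 * (B + 1) + 1 := by gcongr
      _ = D := hD.symm
  refine main_nat hq hδ1 hδ hg hn (D := D) (ρ := ρ) ⟨B + 1, hD⟩ hD3 hρ1 ?_ ?_ ?_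
  · -- ρ + 2 ≤ 4 D
    have h1 : ρ * (4 * D) = 8 * ρ * (B + 1) + 4 * ρ := by rw [hD]; ring
    have h2 : A = ρ * g + 2 * g + ρ := by rw [hA]; ring
    by_contra hlt
    push Not at hlt
    have h3 : ρ * (4 * D) ≤ ρ * (ρ + 1) := Nat.mul_le_mul_left _ (by omega)
    have h4 : ρ * ρ ≤ ρ * g := Nat.mul_le_mul_left _ (by omega)
    have h5 : ρ * (ρ + 1) = ρ * ρ + ρ := by ring
    omega
  · rw [← hA]
    omega
  · -- the size
    have hq0 : 1 ≤ q := hq.one_lt.le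
    have hqr : (1 : ℝ) ≤ q := by exact_mod_cast hq0
    have hsqrt3 : (1.7 : ℝ) ≤ √(g : ℝ) := by
      apply Real.le_sqrt_of_sq_le
      have : (3 : ℝ) ≤ g := by exact_mod_cast hg
      norm_num
      linarith
    have hgs : √(g : ℝ) * √(g : ℝ) = g := Real.mul_self_sqrt (by positivity)
    have hρlo : √(g : ℝ) ≤ ρ := by
      rw [Real.sqrt_le_left (by positivity)]
      have : (g : ℝ) < ((s + 1 : ℕ) : ℝ) * ((s + 1 : ℕ) : ℝ) := by exact_mod_cast hs2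
      rw [hρd]
      nlinarith
    have hρhi : (ρ : ℝ) ≤ √(g : ℝ) + 1 := by
      have h1 : (s : ℝ) ≤ √(g : ℝ) := by
        apply Real.le_sqrt_of_sq_le
        have : (s : ℝ) * s ≤ g := by exact_mod_cast hs1
        nlinarith
      rw [hρd]
      push_cast
      linarith
    have hρpos : (0 : ℝ) < ρ := by exact_mod_cast hρ1
    have hB3 : (8 : ℝ) * ρ * B ≤ (ρ + 2) * g + ρ := by
      have : ((8 * ρ * B : ℕ) : ℝ) ≤ (A : ℝ) := by exact_mod_cast hB2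
      rw [hA] at this
      push_cast at this
      exact this
    -- 8 B ≤ g + 2 √g + 1
    have hB4 : (8 : ℝ) * B ≤ g + 2 * √(g : ℝ) + 1 := by
      have h1 : (ρ : ℝ) * (8 * B) ≤ ρ * (g + 2 * √(g : ℝ) + 1) := by
        have h2 : (g : ℝ) ≤ ρ * √(g : ℝ) := by
          calc (g : ℝ) = √(g : ℝ) * √(g : ℝ) := hgs.symm
            _ ≤ ρ * √(g : ℝ) := by
              apply mul_le_mul_of_nonneg_right hρlo (Real.sqrt_nonneg _)
        nlinarith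
      exact le_of_mul_le_mul_left h1 hρpos
    have hexp : ((2 * (ρ + 1) + (3 * D + 2) : ℕ) : ℝ) ≤ (3 / 4 : ℝ) * g + 13 * √(g : ℝ) := by
      rw [hD]
      push_cast
      linarith
    have h6 : ((q ^ (2 * (ρ + 1) + (3 * D + 2)) : ℕ) : ℝ) ≤ n := by
      push_cast
      rw [← Real.rpow_natCast]
      exact (Real.rpow_le_rpow_of_exponent_le hqr hexp).trans hbig
    exact_mod_cast h6

theorem three_pow (g : ℕ) : (2 : ℝ) ^ ((79 / 100 : ℝ) * g) ≤ (3 : ℝ) ^ ((g : ℝ) / 2) := by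
  have h1 : ((2 : ℝ) ^ (79 : ℝ)) ≤ (3 : ℝ) ^ (50 : ℝ) := by
    have : ((2 : ℝ) ^ (79 : ℕ)) ≤ (3 : ℝ) ^ (50 : ℕ) := by norm_num
    calc ((2 : ℝ) ^ (79 : ℝ)) = (2 : ℝ) ^ ((79 : ℕ) : ℝ) := by norm_num
      _ = (2 : ℝ) ^ (79 : ℕ) := Real.rpow_natCast _ _
      _ ≤ (3 : ℝ) ^ (50 : ℕ) := this
      _ = (3 : ℝ) ^ ((50 : ℕ) : ℝ) := (Real.rpow_natCast _ _).symm
      _ = (3 : ℝ) ^ (50 : ℝ) := by norm_num
  have h2 := Real.rpow_le_rpow (z := (g : ℝ) / 100) (by positivity) h1 (by positivity)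
  rw [← Real.rpow_mul (by norm_num), ← Real.rpow_mul (by norm_num)] at h2
  calc (2 : ℝ) ^ ((79 / 100 : ℝ) * g) = (2 : ℝ) ^ (79 * ((g : ℝ) / 100)) := by congr 1; ring
    _ ≤ (3 : ℝ) ^ (50 * ((g : ℝ) / 100)) := h2
    _ = (3 : ℝ) ^ ((g : ℝ) / 2) := by congr 1; ring

theorem cubic (n g : ℕ) (hn : Even n) (hg : 3 ≤ g)
    (hbig : (2 : ℝ) ^ (1057 : ℝ) * (3 : ℝ) ^ ((g : ℝ) / 2) ≤ n) :
    ∃ G : SimpleGraph (Fin n), G.IsRegularOfDegree 3 ∧ (g : ℕ∞) ≤ G.egirth := by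
  refine main_real (q := 2) (Nat.prime_two.isPrimePow) (by norm_num) (by norm_num) hg hn ?_
  refine le_trans ?_ hbig
  have h1 := three_pow g
  have h2 : (2 : ℝ) ^ ((3 / 4 : ℝ) * g + 13 * √(g : ℝ)) ≤
      (2 : ℝ) ^ (1057 : ℝ) * (2 : ℝ) ^ ((79 / 100 : ℝ) * g) := by
    rw [← Real.rpow_add (by norm_num)]
    apply Real.rpow_le_rpow_of_exponent_le (by norm_num)
    have hgs : √(g : ℝ) * √(g : ℝ) = g := Real.mul_self_sqrt (by positivity)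
    nlinarith [sq_nonneg (√(g : ℝ) - 162.5), Real.sqrt_nonneg (g : ℝ)]
  push_cast
  exact h2.trans (mul_le_mul_of_nonneg_left h1 (by positivity))

end Pool.Agent.GRH
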