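import Pool.Agent.GRH.Sys

/-!
Removing pairwise far apart edges of one colour from a system.
-/

namespace Pool.Agent.GRH

open Finset

section removal

variable {V : Type*} {d : ℕ} {μ : Fin d → V → V}

/-- separation: a reduced word of length at most `ρ` from `S` to `S` is the letter `c` -/
def Sep (μ : Fin d → V → V) (c : Fin d) (S : Finset V) (ρ : ℕ) : Prop :=
  ∀ z ∈ S, ∀ l : List (Fin d), l ≠ [] → l.length ≤ ρ → l.IsChain (· ≠ ·) →
    act μ l z ∈ S → l = [c]

variable [DecidableEq V]

/-- one step of the new system, on all of `V` -/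
def stepR (μ : Fin d → V → V) (c : Fin d) (S : Finset V) (i : Fin d) (z : V) : V :=
  if μ i z ∈ S then μ i (μ c (μ i z)) else μ i z

theorem stepR_notMem {c : Fin d} {S : Finset V} {ρ : ℕ} (hρ : 1 ≤ ρ)
    (hinv : Inv μ) (hcl : ∀ z ∈ S, μ c z ∈ S) (hs : Sep μ c S ρ) {z : V} (hz : z ∉ S)
    (i : Fin d) : stepR μ c S i z ∉ S := by
  unfold stepR
  split_ifs with h
  · intro h2
    have h3 := hs (μ c (μ i z)) (hcl _ h) [i] (by simp) (by simpa using hρ)
      (List.isChain_singleton i) (by simpa [act] using h2)
    have h4 : i = c := by simpa using h3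
    subst h4
    apply hz
    have := hcl _ h
    rwa [hinv] at this
  · exact h

theorem stepR_inv {c : Fin d} {S : Finset V}
    (hinv : Inv μ) (hcl : ∀ z ∈ S, μ c z ∈ S) {z : V} (hz : z ∉ S)
    (i : Fin d) : stepR μ c S i (stepR μ c S i z) = z := by
  unfold stepR
  split_ifs with h h2 h3
  · rw [hinv, hinv, hinv]
  · exact absurd (by rw [hinv]; exact hcl _ h) h2
  · rw [hinv] at h3
    exact absurd h3 hz
  · rw [hinv]

/-- number of expanded letters -/
def cnt (μ : Fin d → V → V) (c : Fin d) (S : Finset V) : List (Fin d) → V → ℕ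
  | [], _ => 0
  | i :: l, z => (if μ i z ∈ S then 1 else 0) + cnt μ c S l (stepR μ c S i z)

/-- the expanded word -/
def expd (μ : Fin d → V → V) (c : Fin d) (S : Finset V) : List (Fin d) → V → List (Fin d)
  | [], _ => []
  | i :: l, z =>
    if μ i z ∈ S then i :: c :: i :: expd μ c S l (stepR μ c S i z)
    else i :: expd μ c S l (stepR μ c S i z)

theorem expd_length {c : Fin d} {S : Finset V} (l : List (Fin d)) (z : V) :
    (expd μ c S l z).length = l.length + 2 * cnt μ c S l z := by
  induction l generalizing z with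
  | nil => rfl
  | cons i l ih =>
    unfold expd cnt
    split_ifs with h
    · simp [ih]; ring
    · simp [ih]; ring

theorem expd_head {c : Fin d} {S : Finset V} (l : List (Fin d)) (z : V) :
    (expd μ c S l z).head? = l.head? := by
  cases l with
  | nil => rfl
  | cons i l =>
    unfold expd
    split_ifs with h <;> simp

theorem expd_act {c : Fin d} {S : Finset V} (l : List (Fin d)) (z : V) :
    act μ (expd μ c S l z) z = act (stepR μ c S) l z := by
  induction l generalizing z with
  | nil => rfl
  | cons i l ih =>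
    unfold expd
    split_ifs with h
    · simp only [act]
      rw [← ih]
      congr 1
      simp [stepR, h]
    · simp only [act]
      rw [← ih]
      congr 1
      simp [stepR, h]

theorem expd_chain {c : Fin d} {S : Finset V} {ρ : ℕ} (hρ : 1 ≤ ρ)
    (hinv : Inv μ) (hcl : ∀ z ∈ S, μ c z ∈ S) (hs : Sep μ c S ρ)
    (l : List (Fin d)) (hl : l.IsChain (· ≠ ·)) (z : V) (hz : z ∉ S) :
    (expd μ c S l z).IsChain (· ≠ ·) := by
  induction l generalizing z with
  | nil => exact List.isChain_nil
  | cons i l ih =>
    rw [List.isChain_cons] at hl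
    have hz' := stepR_notMem hρ hinv hcl hs hz i
    have h1 := ih hl.2 _ hz'
    unfold expd
    split_ifs with h
    · have hic : i ≠ c := by
        intro h4
        subst h4
        apply hz
        have := hcl _ h
        rwa [hinv] at this
      rw [List.isChain_cons, List.isChain_cons, List.isChain_cons, expd_head]
      refine ⟨by simpa using hic, by simpa using hic.symm, ?_, h1⟩
      exact hl.1
    · rw [List.isChain_cons, expd_head]
      exact ⟨hl.1, h1⟩

/-- counting after an expanded letter -/
theorem cnt_after {c : Fin d} {S : Finset V} {ρ : ℕ} (hρ : 1 ≤ ρ)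
    (hinv : Inv μ) (hcl : ∀ z ∈ S, μ c z ∈ S) (hs : Sep μ c S ρ)
    (l : List (Fin d)) (z : V) (hz : z ∉ S) (pre : List (Fin d)) (b : V) (hb : b ∈ S)
    (hpre : pre ≠ []) (hact : act μ pre b = z) (hch : (pre ++ l).IsChain (· ≠ ·)) :
    ρ * cnt μ c S l z + 1 ≤ l.length + pre.length := by
  induction l generalizing z pre b with
  | nil =>
    have : 1 ≤ pre.length := List.length_pos_iff.mpr hpre
    simp [cnt]
    omega
  | cons i l ih =>
    have hz' := stepR_notMem hρ hinv hcl hs hz i
    have hch' : ((pre ++ [i]) ++ l).IsChain (· ≠ ·) := by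
      rw [List.append_assoc]
      simpa using hch
    have hpl : 1 ≤ pre.length := List.length_pos_iff.mpr hpre
    by_cases h : μ i z ∈ S
    · have hc1 : (pre ++ [i]).IsChain (· ≠ ·) := by
        rw [List.isChain_append] at hch'
        exact hch'.1
      have hact2 : act μ (pre ++ [i]) b ∈ S := by
        rw [act_append, hact]
        simpa [act] using h
      have hlen : ρ < pre.length + 1 := by
        by_contra hle
        push Not at hle
        have h5 := hs b hb (pre ++ [i]) (by simp) (by simpa using hle) hc1 hact2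
        have h6 := congrArg List.length h5
        simp at h6
        exact hpre h6
      have hcl2 : ([i] ++ l).IsChain (· ≠ ·) := by
        have h7 := hch
        rw [List.isChain_append] at h7
        simpa using h7.2.1
      have h8 := ih (stepR μ c S i z) hz' [i] (μ c (μ i z)) (hcl _ h) (by simp)
        (by simp [act, stepR, h]) hcl2
      have h9 : cnt μ c S (i :: l) z = 1 + cnt μ c S l (stepR μ c S i z) := by
        simp [cnt, h]
      rw [h9]
      simp only [List.length_cons, List.length_nil] at h8 ⊢
      have h10 : ρ * (1 + cnt μ c S l (stepR μ c S i z)) =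
        ρ + ρ * cnt μ c S l (stepR μ c S i z) := by ring
      rw [h10]
      omega
    · have h8 := ih (stepR μ c S i z) hz' (pre ++ [i]) b hb (by simp)
        (by rw [act_append, hact]; simp [act, stepR, h]) hch'
      have h9 : cnt μ c S (i :: l) z = cnt μ c S l (stepR μ c S i z) := by
        simp [cnt, h]
      rw [h9]
      simp only [List.length_cons, List.length_append, List.length_nil] at h8 ⊢
      omega

theorem cnt_le {c : Fin d} {S : Finset V} {ρ : ℕ} (hρ : 1 ≤ ρ)
    (hinv : Inv μ) (hcl : ∀ z ∈ S, μ c z ∈ S) (hs : Sep μ c S ρ)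
    (l : List (Fin d)) (hl : l.IsChain (· ≠ ·)) (z : V) (hz : z ∉ S) :
    ρ * cnt μ c S l z + 1 ≤ l.length + ρ := by
  induction l generalizing z with
  | nil => simp [cnt]; omega
  | cons i l ih =>
    have hz' := stepR_notMem hρ hinv hcl hs hz i
    by_cases h : μ i z ∈ S
    · have h9 : cnt μ c S (i :: l) z = 1 + cnt μ c S l (stepR μ c S i z) := by
        simp [cnt, h]
      have h8 := cnt_after hρ hinv hcl hs l (stepR μ c S i z) hz' [i] (μ c (μ i z)) (hcl _ h)
        (by simp) (by simp [act, stepR, h]) (by simpa using hl)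
      rw [h9]
      simp only [List.length_cons, List.length_nil] at h8 ⊢
      have h10 : ρ * (1 + cnt μ c S l (stepR μ c S i z)) =
        ρ + ρ * cnt μ c S l (stepR μ c S i z) := by ring
      rw [h10]
      omega
    · have h9 : cnt μ c S (i :: l) z = cnt μ c S l (stepR μ c S i z) := by
        simp [cnt, h]
      rw [List.isChain_cons] at hl
      have h8 := ih hl.2 _ hz'
      rw [h9]
      simp only [List.length_cons]
      omega

/-- the new system -/
def remSys {c : Fin d} {S : Finset V} {ρ : ℕ} (hρ : 1 ≤ ρ)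
    (hinv : Inv μ) (hcl : ∀ z ∈ S, μ c z ∈ S) (hs : Sep μ c S ρ) :
    Fin d → {z : V // z ∉ S} → {z : V // z ∉ S} :=
  fun i z => ⟨stepR μ c S i z.1, stepR_notMem hρ hinv hcl hs z.2 i⟩

theorem remSys_act {c : Fin d} {S : Finset V} {ρ : ℕ} (hρ : 1 ≤ ρ)
    (hinv : Inv μ) (hcl : ∀ z ∈ S, μ c z ∈ S) (hs : Sep μ c S ρ)
    (l : List (Fin d)) (z : {z : V // z ∉ S}) :
    (act (remSys hρ hinv hcl hs) l z).1 = act (stepR μ c S) l z.1 := by
  induction l generalizing z with
  | nil => rfl
  | cons i l ih =>
    simp only [act]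
    rw [ih]
    rfl

theorem remSys_inv {c : Fin d} {S : Finset V} {ρ : ℕ} (hρ : 1 ≤ ρ)
    (hinv : Inv μ) (hcl : ∀ z ∈ S, μ c z ∈ S) (hs : Sep μ c S ρ) :
    Inv (remSys hρ hinv hcl hs) := by
  intro i z
  apply Subtype.ext
  exact stepR_inv hinv hcl z.2 i

theorem remSys_WG {c : Fin d} {S : Finset V} {ρ g0 g : ℕ} (hρ : 1 ≤ ρ)
    (hinv : Inv μ) (hcl : ∀ z ∈ S, μ c z ∈ S) (hs : Sep μ c S ρ)
    (hg0 : WG μ g0) (hnum : (ρ + 2) * g + ρ < ρ * g0 + 4) :
    WG (remSys hρ hinv hcl hs) g := by
  intro l h1 h2 h3 z hz
  have h4 := congrArg Subtype.val hz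
  rw [remSys_act, ← expd_act] at h4
  have h5 := expd_chain hρ hinv hcl hs l h3 z.1 z.2
  have h6 := expd_length (μ := μ) (c := c) (S := S) l z.1
  have h7 := cnt_le hρ hinv hcl hs l h3 z.1 z.2
  have h8 : expd μ c S l z.1 ≠ [] := by
    intro h0
    rw [h0] at h6
    have : 1 ≤ l.length := List.length_pos_iff.mpr h1
    simp at h6
    omega
  have h9 : g0 ≤ (expd μ c S l z.1).length := by
    by_contra hlt
    push Not at hlt
    exact hg0 _ h8 hlt h5 _ h4
  rw [h6] at h9
  -- ρ g0 ≤ ρ k + 2 ρ s, ρ s + 1 ≤ k + ρ, k + 1 ≤ g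
  have h10 : ρ * g0 ≤ ρ * (l.length + 2 * cnt μ c S l z.1) := Nat.mul_le_mul_left _ h9
  have h11 : (ρ + 2) * (l.length + 1) ≤ (ρ + 2) * g := Nat.mul_le_mul_left _ h2
  nlinarith [h10, h11, h7, hnum]

theorem remSys_card [Fintype V] {S : Finset V} :
    Fintype.card {z : V // z ∉ S} = Fintype.card V - S.card := by
  rw [Fintype.card_subtype_compl (fun z => z ∈ S)]
  simp

end removal

section existence

variable {V : Type*} {d : ℕ} {μ : Fin d → V → V} [DecidableEq V]

/-- balls around a finite set -/
def ball (μ : Fin d → V → V) (S : Finset V) : ℕ → Finset V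
  | 0 => S
  | j + 1 => ball μ S j ∪ univ.biUnion (fun i => (ball μ S j).image (μ i))

theorem ball_card (S : Finset V) (j : ℕ) :
    (ball μ S j).card ≤ (d + 1) ^ j * S.card := by
  induction j with
  | zero => simp [ball]
  | succ j ih =>
    unfold ball
    calc (ball μ S j ∪ univ.biUnion (fun i => (ball μ S j).image (μ i))).card
        ≤ (ball μ S j).card + (univ.biUnion (fun i => (ball μ S j).image (μ i))).card :=
          card_union_le _ _
      _ ≤ (ball μ S j).card + ∑ i : Fin d, ((ball μ S j).image (μ i)).card := by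
          exact Nat.add_le_add_left (card_biUnion_le) _
      _ ≤ (ball μ S j).card + ∑ _i : Fin d, (ball μ S j).card := by
          exact Nat.add_le_add_left (sum_le_sum fun i _ => card_image_le) _
      _ = (d + 1) * (ball μ S j).card := by simp; ring
      _ ≤ (d + 1) * ((d + 1) ^ j * S.card) := Nat.mul_le_mul_left _ ih
      _ = (d + 1) ^ (j + 1) * S.card := by ring

theorem ball_mono (S : Finset V) {j k : ℕ} (h : j ≤ k) : ball μ S j ⊆ ball μ S k := by
  induction k, h using Nat.le_induction with
  | base => exact fun _ h => h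
  | succ k _ ih =>
    refine ih.trans ?_
    intro x hx
    rw [ball]
    exact mem_union_left _ hx

theorem mem_ball_step {S : Finset V} {j : ℕ} {z : V} (hz : z ∈ ball μ S j) (i : Fin d) :
    μ i z ∈ ball μ S (j + 1) := by
  rw [ball]
  apply mem_union_right
  rw [mem_biUnion]
  exact ⟨i, mem_univ _, mem_image_of_mem _ hz⟩

theorem act_mem_ball {S : Finset V} {j : ℕ} {z : V} (hz : z ∈ ball μ S j)
    (l : List (Fin d)) : act μ l z ∈ ball μ S (j + l.length) := by
  induction l generalizing j z with
  | nil => simpa [act] using hz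
  | cons i l ih =>
    have := ih (mem_ball_step hz i)
    simp only [act, List.length_cons]
    rwa [show j + (l.length + 1) = j + 1 + l.length by ring]

theorem act_mem_ball' {S : Finset V} {z : V} (hz : z ∈ S) {k : ℕ}
    (l : List (Fin d)) (hl : l.length ≤ k) : act μ l z ∈ ball μ S k := by
  have h := act_mem_ball (μ := μ) (S := S) (j := 0) (by simpa [ball] using hz) l
  rw [zero_add] at h
  exact ball_mono S hl h

omit [DecidableEq V] in
/-- closed words inside one removed edge -/
theorem word_pair {c : Fin d} {ρ g0 : ℕ} (hinv : Inv μ)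
    (hg0 : WG μ g0) (hρ : ρ + 2 ≤ g0) {z : V} {l : List (Fin d)} (hl : l ≠ [])
    (hlen : l.length ≤ ρ) (hch : l.IsChain (· ≠ ·)) :
    act μ l z ≠ z ∧ (act μ l z = μ c z → l = [c]) := by
  refine ⟨hg0 l hl (by omega) hch z, ?_⟩
  intro h
  by_cases hlast : l.getLast? = some c
  · obtain ⟨l', rfl⟩ : ∃ l', l = l' ++ [c] := by
      rw [List.getLast?_eq_some_iff] at hlast
      obtain ⟨ys, hys⟩ := hlast
      exact ⟨ys, hys⟩
    rw [act_append] at h
    simp only [act] at h
    have h2 : act μ l' z = z := by
      have := congrArg (μ c) h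
      rwa [hinv, hinv] at this
    by_cases hl' : l' = []
    · simp [hl']
    · exfalso
      rw [List.isChain_append] at hch
      simp only [List.length_append, List.length_cons, List.length_nil] at hlen
      exact hg0 l' hl' (by omega) hch.1 z h2
  · exfalso
    have h3 : act μ (l ++ [c]) z = z := by
      rw [act_append, h]
      simp [act, hinv c z]
    refine hg0 (l ++ [c]) (by simp) (by simp; omega) ?_ z h3
    rw [List.isChain_append]
    refine ⟨hch, List.isChain_singleton c, ?_⟩
    intro x hx y hy
    simp only [List.head?_cons, Option.mem_def, Option.some.injEq] at hy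
    subst hy
    intro hxc
    subst hxc
    exact hlast hx

theorem exists_set [Fintype V] {c : Fin d} {ρ g0 : ℕ} (hinv : Inv μ)
    (hg0 : WG μ g0) (hρ : ρ + 2 ≤ g0) (hρ1 : 1 ≤ ρ) (r : ℕ)
    (hr : 2 * r * (d + 1) ^ (ρ + 1) ≤ Fintype.card V) :
    ∃ S : Finset V, S.card = 2 * r ∧ (∀ z ∈ S, μ c z ∈ S) ∧ Sep μ c S ρ := by
  induction r with
  | zero => exact ⟨∅, by simp, by simp, by intro z hz; simp at hz⟩
  | succ r ih =>
    have hpos : 0 < (d + 1) ^ (ρ + 1) := by positivity
    have hr1 : 2 * r * (d + 1) ^ (ρ + 1) < Fintype.card V := by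
      refine lt_of_lt_of_le ?_ hr
      nlinarith
    obtain ⟨S, hS, hcl, hsep⟩ := ih hr1.le
    have hb : (ball μ S (ρ + 1)).card < Fintype.card V := by
      refine lt_of_le_of_lt (ball_card S (ρ + 1)) ?_
      rw [hS]
      calc (d + 1) ^ (ρ + 1) * (2 * r) = 2 * r * (d + 1) ^ (ρ + 1) := by ring
        _ < _ := hr1
    obtain ⟨a, ha⟩ : ∃ a, a ∉ ball μ S (ρ + 1) := by
      by_contra hall
      push Not at hall
      have : ball μ S (ρ + 1) = univ := by
        ext x
        simp [hall x]
      rw [this] at hb
      simp at hb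
    have hab : μ c a ≠ a := by
      exact hg0 [c] (by simp) (by simp; omega) (List.isChain_singleton c) a
    have hba : μ c a ∉ ball μ S ρ := by
      intro h
      apply ha
      have := mem_ball_step h c
      rwa [hinv] at this
    have haS : a ∉ S := fun h => ha (ball_mono S (Nat.zero_le _) (by simpa [ball] using h))
    have hbS : μ c a ∉ S := fun h => hba (ball_mono S (Nat.zero_le _) (by simpa [ball] using h))
    -- no word from S to a or μ c a
    have key : ∀ z ∈ S, ∀ l : List (Fin d), l.length ≤ ρ →
        act μ l z ≠ a ∧ act μ l z ≠ μ c a := by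
      intro z hz l hl
      refine ⟨fun h => ha ?_, fun h => hba ?_⟩
      · rw [← h]
        exact act_mem_ball' hz l (by omega)
      · rw [← h]
        exact act_mem_ball' hz l hl
    have key2 : ∀ z ∈ S, ∀ l : List (Fin d), l.length ≤ ρ →
        act μ l a ≠ z ∧ act μ l (μ c a) ≠ z := by
      intro z hz l hl
      refine ⟨fun h => ?_, fun h => ?_⟩
      · have h2 := act_reverse hinv l a
        rw [h] at h2
        exact (key z hz l.reverse (by simpa using hl)).1 h2
      · have h2 := act_reverse hinv l (μ c a)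
        rw [h] at h2
        exact (key z hz l.reverse (by simpa using hl)).2 h2
    refine ⟨insert a (insert (μ c a) S), ?_, ?_, ?_⟩
    · rw [card_insert_of_notMem, card_insert_of_notMem hbS, hS]
      · ring
      · rw [mem_insert]
        push Not
        exact ⟨fun h => hab h.symm, haS⟩
    · intro z hz
      rw [mem_insert, mem_insert] at hz ⊢
      rcases hz with rfl | rfl | hz
      · right; left; rfl
      · left; exact hinv c a
      · right
        right
        exact hcl z hz
    · intro z hz l hl hlen hch hmem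
      rw [mem_insert, mem_insert] at hz hmem
      have hp := word_pair (c := c) hinv hg0 hρ (z := z) hl hlen hch
      rcases hz with rfl | rfl | hz
      · rcases hmem with h | h | h
        · exact absurd h hp.1
        · exact hp.2 h
        · exact absurd rfl (key2 _ h l hlen).1
      · rcases hmem with h | h | h
        · apply hp.2
          rw [h, hinv]
        · exact absurd h hp.1
        · exact absurd rfl (key2 _ h l hlen).2
      · rcases hmem with h | h | h
        · exact absurd h (key z hz l hlen).1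
        · exact absurd h (key z hz l hlen).2
        · exact hsep z hz l hl hlen hch h

end existence

section copies

variable {V : Type*} {d : ℕ} {μ : Fin d → V → V}

/-- `K` disjoint copies -/
def copies (K : ℕ) (μ : Fin d → V → V) : Fin d → V × Fin K → V × Fin K :=
  fun i z => (μ i z.1, z.2)

theorem copies_act (K : ℕ) (l : List (Fin d)) (z : V × Fin K) :
    act (copies K μ) l z = (act μ l z.1, z.2) := by
  induction l generalizing z with
  | nil => rfl
  | cons i l ih => simp [act, ih, copies]

theorem copies_inv (K : ℕ) (h : Inv μ) : Inv (copies K μ) := by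
  intro i z
  simp [copies, h i z.1]

theorem copies_WG (K : ℕ) {g : ℕ} (h : WG μ g) : WG (copies K μ) g := by
  intro l h1 h2 h3 z hz
  rw [copies_act] at hz
  exact h l h1 h2 h3 z.1 (congrArg Prod.fst hz)

open Classical in
/-- all even orders from one base system -/
theorem all_orders [Fintype V] (hd : 1 ≤ d) (hinv : Inv μ) {g0 g ρ n : ℕ} (hg0 : WG μ g0)
    (hρ1 : 1 ≤ ρ) (hρ : ρ + 2 ≤ g0) (hnum : (ρ + 2) * g + ρ < ρ * g0 + 4) (hg3 : 3 ≤ g)
    (hM : Even (Fintype.card V)) (hM0 : 0 < Fintype.card V) (hn : Even n)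
    (hnM : (d + 1) ^ (ρ + 1) * Fintype.card V ≤ n) :
    ∃ G : SimpleGraph (Fin n), G.IsRegularOfDegree d ∧ (g : ℕ∞) ≤ G.egirth := by
  set M := Fintype.card V with hMdef
  -- number of copies
  set K := (n + (M - 1)) / M with hK
  have hKM1 : n ≤ K * M := by
    have h := Nat.div_add_mod (n + (M - 1)) M
    have h2 := Nat.mod_lt (n + (M - 1)) hM0
    rw [← hK] at h
    have : M * K = K * M := mul_comm _ _
    omega
  have hKM2 : K * M < n + M := by
    have h := Nat.div_mul_le_self (n + (M - 1)) M
    rw [← hK] at h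
    omega
  have hKge : (d + 1) ^ (ρ + 1) ≤ K := by
    by_contra hlt
    push Not at hlt
    have h1 : (K + 1) * M ≤ (d + 1) ^ (ρ + 1) * M := Nat.mul_le_mul_right _ hlt
    have h2 : K * M < (K + 1) * M := by nlinarith
    omega
  have hev : Even (K * M - n) := by
    rw [Nat.even_sub hKM1]
    constructor
    · intro _; exact hn
    · intro _; exact hM.mul_left K
  obtain ⟨r, hr⟩ := hev
  have hr2 : 2 * r < M := by omega
  have hcard : Fintype.card (V × Fin K) = K * M := by
    rw [Fintype.card_prod, Fintype.card_fin, ← hMdef]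
    ring
  have hr3 : 2 * r * (d + 1) ^ (ρ + 1) ≤ Fintype.card (V × Fin K) := by
    rw [hcard]
    calc 2 * r * (d + 1) ^ (ρ + 1) ≤ M * K := Nat.mul_le_mul hr2.le hKge
      _ = K * M := mul_comm _ _
  have c : Fin d := ⟨0, hd⟩
  obtain ⟨S, hS, hcl, hsep⟩ := exists_set (c := c) (copies_inv K hinv) (copies_WG K hg0) hρ hρ1 r hr3
  have hinv' := remSys_inv hρ1 (copies_inv K hinv) hcl hsep
  have hWG := remSys_WG hρ1 (copies_inv K hinv) hcl hsep (copies_WG K hg0) hnum
  refine exists_graph _ hinv' hWG hg3 ?_
  rw [remSys_card, hcard, hS]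
  omega

end copies

end Pool.Agent.GRH
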