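import Mathlib

/-!
Edge-coloured regular graphs given by involutions (systems), the word form of the girth
condition, and the passage to simple graphs on `Fin n`.
-/

namespace Pool.Agent.GRH

open Finset

/-- apply the colours of a list one after the other (first letter first) -/
def act {V : Type*} {d : ℕ} (μ : Fin d → V → V) : List (Fin d) → V → V
  | [], v => v
  | i :: l, v => act μ l (μ i v)

/-- a `d`-coloured system: each colour is an involution -/
def Inv {V : Type*} {d : ℕ} (μ : Fin d → V → V) : Prop := ∀ i v, μ i (μ i v) = v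

/-- word girth: no closed reduced word of length in `[1, g)` -/
def WG {V : Type*} {d : ℕ} (μ : Fin d → V → V) (g : ℕ) : Prop :=
  ∀ l : List (Fin d), l ≠ [] → l.length < g → l.IsChain (· ≠ ·) → ∀ v, act μ l v ≠ v

section basic

variable {V : Type*} {d : ℕ} {μ : Fin d → V → V}

theorem act_append (l l' : List (Fin d)) (v : V) :
    act μ (l ++ l') v = act μ l' (act μ l v) := by
  induction l generalizing v with
  | nil => rfl
  | cons i l ih => simp [act, ih]

theorem act_reverse (h : Inv μ) (l : List (Fin d)) (v : V) :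
    act μ l.reverse (act μ l v) = v := by
  induction l generalizing v with
  | nil => rfl
  | cons i l ih =>
    rw [List.reverse_cons, act_append]
    simp only [act]
    rw [ih, h]

theorem WG.mono {g g' : ℕ} (h : WG μ g) (hg : g' ≤ g) : WG μ g' :=
  fun l h1 h2 h3 v => h l h1 (lt_of_lt_of_le h2 hg) h3 v

/-- transport of a system along an equivalence -/
def trans {W : Type*} (e : V ≃ W) (μ : Fin d → V → V) : Fin d → W → W :=
  fun i w => e (μ i (e.symm w))

theorem trans_act {W : Type*} (e : V ≃ W) (l : List (Fin d)) (w : W) :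
    act (trans e μ) l w = e (act μ l (e.symm w)) := by
  induction l generalizing w with
  | nil => simp [act]
  | cons i l ih => simp [act, ih, trans]

theorem trans_inv {W : Type*} (e : V ≃ W) (h : Inv μ) : Inv (trans e μ) := by
  intro i w
  simp [trans, h i]

theorem trans_WG {W : Type*} (e : V ≃ W) {g : ℕ} (h : WG μ g) : WG (trans e μ) g := by
  intro l h1 h2 h3 w hw
  rw [trans_act] at hw
  exact h l h1 h2 h3 (e.symm w) (by rw [← e.symm_apply_apply (act μ l (e.symm w)), hw])

/-- the graph of a system -/
def graph (μ : Fin d → V → V) (hinv : Inv μ) (h1 : ∀ i v, μ i v ≠ v) : SimpleGraph V where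
  Adj u v := ∃ i, μ i u = v
  symm := ⟨by
    rintro u v ⟨i, rfl⟩
    exact ⟨i, hinv i u⟩⟩
  loopless := ⟨by
    rintro v ⟨i, hi⟩
    exact h1 i v hi⟩

theorem graph_regular [Fintype V] [DecidableEq V] (hinv : Inv μ) (h1 : ∀ i v, μ i v ≠ v)
    (h2 : ∀ i j v, i ≠ j → μ i v ≠ μ j v)
    [DecidableRel (graph μ hinv h1).Adj] :
    (graph μ hinv h1).IsRegularOfDegree d := by
  intro v
  have hN : (graph μ hinv h1).neighborFinset v = univ.image (fun i => μ i v) := by
    ext w
    simp [graph]
  rw [← SimpleGraph.card_neighborFinset_eq_degree, hN, card_image_of_injective]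
  · simp
  · intro i j hij
    by_contra hne
    exact h2 i j v hne hij

/-- colours of a trail -/
theorem trail_word (hinv : Inv μ) (h1 : ∀ i v, μ i v ≠ v) {u v : V}
    (p : (graph μ hinv h1).Walk u v) (hp : p.IsTrail) :
    ∃ l : List (Fin d), l.length = p.length ∧ act μ l u = v ∧ l.IsChain (· ≠ ·) ∧
      ∀ j ∈ l.head?, s(u, μ j u) ∈ p.edges := by
  induction p with
  | nil => exact ⟨[], rfl, rfl, List.isChain_nil, by simp⟩
  | @cons u w v h p' ih =>
    rw [SimpleGraph.Walk.isTrail_cons] at hp
    obtain ⟨l, hl, ha, hc, hh⟩ := ih hp.1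
    have h' := h
    obtain ⟨i, hi⟩ := h'
    refine ⟨i :: l, by simp [hl], ?_, ?_, ?_⟩
    · simp only [act]
      rw [hi, ha]
    · rw [List.isChain_cons]
      refine ⟨?_, hc⟩
      intro j hj hij
      subst hij
      have h3 := hh i hj
      have h4 : μ i w = u := by rw [← hi, hinv]
      rw [h4] at h3
      exact hp.2 (by rw [Sym2.eq_swap]; exact h3)
    · intro j hj
      simp only [List.head?_cons, Option.mem_def, Option.some.injEq] at hj
      subst hj
      rw [hi]
      simp

theorem graph_egirth (hinv : Inv μ) (h1 : ∀ i v, μ i v ≠ v) {g : ℕ} (hg : WG μ g) :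
    (g : ℕ∞) ≤ (graph μ hinv h1).egirth := by
  rw [SimpleGraph.le_egirth]
  intro a w hw
  by_contra hlt
  push Not at hlt
  have hlt' : w.length < g := by exact_mod_cast hlt
  obtain ⟨l, hl, ha, hc, -⟩ := trail_word hinv h1 w hw.isTrail
  refine hg l ?_ (by rw [hl]; exact hlt') hc a ha
  intro h0
  rw [h0] at hl
  have := hw.three_le_length
  simp at hl
  omega

end basic

open Classical in
/-- a system on a type with `n` elements and word girth `g` gives a graph on `Fin n` -/
theorem exists_graph {V : Type*} [Fintype V] {d g n : ℕ} (μ : Fin d → V → V)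
    (hinv : Inv μ) (hg : WG μ g) (hg3 : 3 ≤ g) (hn : Fintype.card V = n) :
    ∃ G : SimpleGraph (Fin n), G.IsRegularOfDegree d ∧ (g : ℕ∞) ≤ G.egirth := by
  have e : V ≃ Fin n := Fintype.equivFinOfCardEq hn
  have hinv' := trans_inv e hinv
  have hg' := trans_WG e hg
  have h1 : ∀ i v, trans e μ i v ≠ v := by
    intro i v
    exact hg' [i] (by simp) (by simp; omega) (List.isChain_singleton i) v
  have h2 : ∀ i j v, i ≠ j → trans e μ i v ≠ trans e μ j v := by
    intro i j v hij h
    refine hg' [i, j] (by simp) (by simp; omega) (by simp [hij]) v ?_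
    simp only [act]
    rw [h, hinv']
  refine ⟨graph (trans e μ) hinv' h1, ?_, graph_egirth hinv' h1 hg'⟩
  exact graph_regular hinv' h1 h2

end Pool.Agent.GRH
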